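import Pool.Agent.Lib.H55D.Seg
import Pool.Agent.Lib.H36G.E6b

set_option autoImplicit false

/-!
# Complements of planar graphs which are bipartite after deletion of special vertices of degree two

`IsPlanar G` (Lib/CookLevin/Planar.lean): `G` has a rotation system of genus zero.

The proof has three parts.
1. `H36G.strict_order`: every planar bipartite map has an order of its vertices in which two edges
   whose left ends have the same colour do not cross. (A two-page book embedding in which the page of
   an edge is the colour of its left end; proved by peeling a quadrangulation.)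
2. `H55D.exists_wbs`: a minimal set of special vertices is contracted into neighbours, Part 1 is applied
   to the contracted map, and the special vertices are inserted on the right of their neighbours.
3. `H92W.wbs`: such an order gives a family of segments which represents the complement.
-/

namespace Pool.Agent.Results.MP_ddd335_co.BipartiteCore

open Pool.Agent.Lib.CookLevin (IsPlanar)

/-- `v` has exactly two neighbours. -/
def DegTwo {V : Type} (G : SimpleGraph V) (v : V) : Prop :=
  ∃ a b, a ≠ b ∧ ∀ w, G.Adj v w ↔ w = a ∨ w = b

/-- `v` has degree two, and it lies in a triangle or has a neighbour of degree two. -/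
def Special {V : Type} (G : SimpleGraph V) (v : V) : Prop :=
  DegTwo G v ∧ ((∃ a b, G.Adj v a ∧ G.Adj v b ∧ G.Adj a b) ∨ ∃ a, G.Adj v a ∧ DegTwo G a)

/-- Let `G` be a finite planar graph such that the vertices which are not special induce a bipartite
graph. Then the complement of `G` is the intersection graph of segments in the plane. -/
theorem result (V : Type) [Finite V] (G : SimpleGraph V) (hG : IsPlanar G)
    (hS : (G.induce {v | ¬ Special G v}).Colorable 2) :
    ∃ s : V → (ℝ × ℝ) × (ℝ × ℝ), (∀ v, (s v).1 ≠ (s v).2) ∧
      ∀ u v, u ≠ v → (Gᶜ.Adj u v ↔
        (segment ℝ (s u).1 (s u).2 ∩ segment ℝ (s v).1 (s v).2).Nonempty) := by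
  refine Pool.Agent.Lib.H55D.seg V G hG hS ?_
  intro D _ φ α lam c h hb hs
  obtain ⟨p, hp1, hp2⟩ := Pool.Agent.Lib.H36G.strict_order h hb hs
  exact ⟨p, hp1, hp2⟩

end Pool.Agent.Results.MP_ddd335_co.BipartiteCore
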