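import Pool.Agent.Lib.H71S.PlanarMain

set_option autoImplicit false

namespace Pool.Agent.Results.MP_ddd335_co.PlanarBlocks

open H71S Pool.Agent.Lib.CookLevin

/-- Permutation graphs: the vertices carry two injective labellings by real numbers, and two
vertices are adjacent iff the two labellings order them in opposite ways. -/
def IsPermGraph {V : Type} (H : SimpleGraph V) : Prop :=
  ∃ p q : V → ℝ, Function.Injective p ∧ Function.Injective q ∧
    ∀ x y, H.Adj x y ↔ (p x < p y ∧ q y < q x) ∨ (p y < p x ∧ q x < q y)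

/-- Intersection graphs of non-degenerate closed segments in the plane. -/
def IsSegGraph {V : Type} (H : SimpleGraph V) : Prop :=
  ∃ s : V → (ℝ × ℝ) × (ℝ × ℝ), (∀ v, (s v).1 ≠ (s v).2) ∧
    ∀ u v, u ≠ v → (H.Adj u v ↔
      (segment ℝ (s u).1 (s u).2 ∩ segment ℝ (s v).1 (s v).2).Nonempty)

theorem cn_of_reach {X : Type} {G : SimpleGraph X} {W : Set X} {x y : ↑Wᶜ}
    (h : (G.induce Wᶜ).Reachable x y) : cn G W x.1 y.1 := by
  obtain ⟨w⟩ := h
  induction w with
  | nil => exact (cn G W).refl _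
  | @cons u v w huv _ ih =>
    exact (cn G W).trans (Relation.EqvGen.rel _ _ ⟨u.2, v.2, huv⟩) ih

theorem reach_of_cn {X : Type} {G : SimpleGraph X} {W : Set X} {x y : X}
    (h : cn G W x y) (hx : x ∈ Wᶜ) (hy : y ∈ Wᶜ) :
    (G.induce Wᶜ).Reachable ⟨x, hx⟩ ⟨y, hy⟩ := by
  have key : ∀ x y, cn G W x y → x = y ∨ ∃ (hx : x ∈ Wᶜ) (hy : y ∈ Wᶜ),
      (G.induce Wᶜ).Reachable ⟨x, hx⟩ ⟨y, hy⟩ := by
    intro x y h
    induction h with
    | rel a b h => exact Or.inr ⟨h.1, h.2.1, SimpleGraph.Adj.reachable h.2.2⟩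
    | refl a => exact Or.inl rfl
    | symm a b _ ih =>
      rcases ih with h | ⟨h1, h2, h3⟩
      · exact Or.inl h.symm
      · exact Or.inr ⟨h2, h1, h3.symm⟩
    | trans a b c _ _ ih1 ih2 =>
      rcases ih1 with rfl | ⟨h1, h2, h3⟩
      · exact ih2
      · rcases ih2 with rfl | ⟨h4, h5, h6⟩
        · exact Or.inr ⟨h1, h2, h3⟩
        · exact Or.inr ⟨h1, h5, h3.trans h6⟩
  rcases key x y h with rfl | ⟨h1, h2, h3⟩
  · exact SimpleGraph.Reachable.refl _
  · exact h3

theorem blocks (X : Type) [Finite X] (G : SimpleGraph X) (hG : IsPlanar G) (W : Set X)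
    (hW : ∀ x ∈ W, ∀ y ∈ W, ¬ G.Adj x y)
    (hK : ∀ K : (G.induce Wᶜ).ConnectedComponent, IsPermGraph ((G.induce Wᶜ).induce K.supp) ∧
      ((∃ a b : X, ∀ x ∈ K.supp, ∀ y ∈ W, G.Adj x y → y = a ∨ y = b) ∨
        ∃ a b c : X, ∀ x ∈ K.supp, (∀ y ∈ W, ¬ G.Adj x y) ∨
          ∀ y ∈ W, (G.Adj x y ↔ y = a ∨ y = b ∨ y = c))) :
    IsSegGraph Gᶜ := by
  classical
  choose p q hp hq hpq using fun K => (hK K).1
  let C : ∀ x : X, x ∈ Wᶜ → (G.induce Wᶜ).ConnectedComponent := fun x hx =>
    (G.induce Wᶜ).connectedComponentMk ⟨x, hx⟩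
  let P : X → ℝ := fun x => if hx : x ∈ Wᶜ then p (C x hx) ⟨⟨x, hx⟩, rfl⟩ else 0
  let R : X → ℝ := fun x => if hx : x ∈ Wᶜ then q (C x hx) ⟨⟨x, hx⟩, rfl⟩ else 0
  have hP : ∀ x (hx : x ∈ Wᶜ) (K : (G.induce Wᶜ).ConnectedComponent)
      (hK : (⟨x, hx⟩ : ↑Wᶜ) ∈ K.supp), P x = p K ⟨⟨x, hx⟩, hK⟩ ∧ R x = q K ⟨⟨x, hx⟩, hK⟩ := by
    intro x hx K hK
    have h1 : C x hx = K := hK
    subst h1
    exact ⟨dif_pos hx, dif_pos hx⟩
  refine planar_main G hG W hW P R ?_ ?_
  · intro x hx y hy hxy hne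
    have hr := reach_of_cn hxy hx hy
    have h1 : (⟨x, hx⟩ : ↑Wᶜ) ∈ (C x hx).supp := rfl
    have h2 : (⟨y, hy⟩ : ↑Wᶜ) ∈ (C x hx).supp := SimpleGraph.ConnectedComponent.eq.2 hr.symm
    rw [(hP x hx _ h1).1, (hP x hx _ h1).2, (hP y hy _ h2).1, (hP y hy _ h2).2, ← hpq]
    refine ⟨fun h => hne ?_, fun h => hne ?_, ?_⟩
    · have := hp _ h
      exact congrArg (fun z => z.1.1) this
    · have := hq _ h
      exact congrArg (fun z => z.1.1) this
    · exact Iff.rfl
  · intro z hz
    rcases (hK (C z hz)).2 with ⟨a, b, h⟩ | ⟨a, b, c, h⟩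
    · left
      refine ⟨a, b, fun x hx hzx y hy hxy => ?_⟩
      have h2 : (⟨x, hx⟩ : ↑Wᶜ) ∈ (C z hz).supp :=
        SimpleGraph.ConnectedComponent.eq.2 (reach_of_cn hzx hz hx).symm
      exact h _ h2 y hy hxy
    · right
      refine ⟨a, b, c, fun x hx hzx => ?_⟩
      have h2 : (⟨x, hx⟩ : ↑Wᶜ) ∈ (C z hz).supp :=
        SimpleGraph.ConnectedComponent.eq.2 (reach_of_cn hzx hz hx).symm
      exact h _ h2

/-- a finite set with at most two elements -/
theorem two_of_ncard {X : Type} [Finite X] (S : Set X) [Nonempty X] (h : S.ncard ≤ 2) :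
    ∃ a b, ∀ x ∈ S, x = a ∨ x = b := by
  classical
  rcases S.eq_empty_or_nonempty with h0 | ⟨a, ha⟩
  · obtain ⟨a⟩ := ‹Nonempty X›
    exact ⟨a, a, by simp [h0]⟩
  · by_cases h1 : ∃ b ∈ S, b ≠ a
    · obtain ⟨b, hb, hba⟩ := h1
      refine ⟨a, b, fun x hx => ?_⟩
      by_contra hc
      push Not at hc
      have h3 : ({a, b, x} : Set X) ⊆ S := by
        intro y hy
        rcases hy with rfl | rfl | rfl
        · exact ha
        · exact hb
        · exact hx
      have h4 : ({a, b, x} : Set X).ncard = 3 := by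
        rw [Set.ncard_eq_three]
        exact ⟨a, b, x, hba.symm, hc.1.symm, hc.2.symm, rfl⟩
      have := Set.ncard_le_ncard h3 (Set.toFinite S)
      omega
    · push Not at h1
      exact ⟨a, a, fun x hx => Or.inl (h1 x hx)⟩

theorem low_degree (X : Type) [Finite X] (G : SimpleGraph X) (hG : IsPlanar G)
    (hdeg : ∀ x y, G.Adj x y → (G.neighborSet x).ncard ≤ 2 ∨ (G.neighborSet y).ncard ≤ 2) :
    IsSegGraph Gᶜ := by
  classical
  -- a maximal independent set containing all vertices of degree at least three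
  let T : Set (Set X) := {W | (∀ x ∈ W, ∀ y ∈ W, ¬ G.Adj x y) ∧
    ∀ x, 2 < (G.neighborSet x).ncard → x ∈ W}
  have hT : T.Nonempty := by
    refine ⟨{x | 2 < (G.neighborSet x).ncard}, ?_, fun x hx => hx⟩
    intro x hx y hy hxy
    have h1 : 2 < (G.neighborSet x).ncard := hx
    have h2 : 2 < (G.neighborSet y).ncard := hy
    rcases hdeg x y hxy with h | h
    · omega
    · omega
  obtain ⟨W, ⟨hW, hW3⟩, hmax⟩ := (Set.toFinite T).exists_maximalFor id T hT
  have hdeg2 : ∀ x, x ∉ W → (G.neighborSet x).ncard ≤ 2 := by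
    intro x hx
    by_contra hc
    exact hx (hW3 x (by omega))
  have hnb : ∀ x, x ∉ W → ∃ w ∈ W, G.Adj x w := by
    intro x hx
    by_contra hc
    push Not at hc
    have h1 : insert x W ∈ T := by
      refine ⟨?_, fun y hy => Or.inr (hW3 y hy)⟩
      rintro a (rfl | ha) b (rfl | hb)
      · exact G.loopless.irrefl _
      · exact hc b hb
      · exact fun h => hc a ha h.symm
      · exact hW a ha b hb
    have h2 := hmax h1 (Set.subset_insert x W)
    exact hx (h2 (Set.mem_insert x W))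
  -- outside of `W` the graph is a matching
  have hone : ∀ x, x ∉ W → ∀ y, y ∉ W → G.Adj x y → ∃ w ∈ W, ∀ z, G.Adj x z → z = y ∨ z = w := by
    intro x hx y hy hxy
    obtain ⟨w, hw, hxw⟩ := hnb x hx
    refine ⟨w, hw, fun z hz => ?_⟩
    by_contra hc
    push Not at hc
    have hyw : y ≠ w := fun h => hy (h ▸ hw)
    have h3 : ({y, w, z} : Set X) ⊆ G.neighborSet x := by
      intro a ha
      rcases ha with rfl | rfl | rfl
      · exact hxy
      · exact hxw
      · exact hz
    have h4 : ({y, w, z} : Set X).ncard = 3 := by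
      rw [Set.ncard_eq_three]
      exact ⟨y, w, z, hyw, hc.1.symm, hc.2.symm, rfl⟩
    have := Set.ncard_le_ncard h3 (Set.toFinite _)
    have := hdeg2 x hx
    omega
  have hreach : ∀ x y : ↑Wᶜ, (G.induce Wᶜ).Reachable x y → x = y ∨ G.Adj x.1 y.1 := by
    rintro x y ⟨p⟩
    induction p with
    | nil => exact Or.inl rfl
    | @cons u v w huv _ ih =>
      have huv' : G.Adj u.1 v.1 := huv
      rcases ih with rfl | h
      · exact Or.inr huv'
      · left
        obtain ⟨b, hb, h2⟩ := hone v.1 v.2 u.1 u.2 huv'.symm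
        rcases h2 w.1 h with h3 | h3
        · exact Subtype.ext h3.symm
        · exact absurd (h3 ▸ hb) w.2
  refine blocks X G hG W hW fun K => ⟨?_, ?_⟩
  · obtain ⟨n, ⟨e⟩⟩ := Finite.exists_equiv_fin ↑K.supp
    refine ⟨fun v => (e v : ℝ), fun v => -(e v : ℝ), ?_, ?_, ?_⟩
    · intro a b hab
      have h1 : ((e a).val : ℝ) = (e b).val := hab
      exact e.injective (Fin.ext (by exact_mod_cast h1))
    · intro a b hab
      have h1 : ((e a).val : ℝ) = (e b).val := neg_inj.1 hab
      exact e.injective (Fin.ext (by exact_mod_cast h1))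
    · intro a b
      have h0 : ((G.induce Wᶜ).induce K.supp).Adj a b ↔ a ≠ b := by
        constructor
        · exact fun h => h.ne
        · intro h
          have h1 : (G.induce Wᶜ).Reachable a.1 b.1 :=
            SimpleGraph.ConnectedComponent.exact (a.2.trans b.2.symm)
          rcases hreach _ _ h1 with h2 | h2
          · exact absurd (Subtype.ext h2) h
          · exact h2
      rw [h0]
      have h1 : a ≠ b ↔ (e a).val ≠ (e b).val := by
        rw [ne_eq, ne_eq, Fin.val_inj, e.injective.eq_iff]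
      rw [h1]
      constructor
      · intro h
        rcases lt_or_gt_of_ne h with h | h
        · left
          have : ((e a).val : ℝ) < (e b).val := by exact_mod_cast h
          exact ⟨this, neg_lt_neg this⟩
        · right
          have : ((e b).val : ℝ) < (e a).val := by exact_mod_cast h
          exact ⟨this, neg_lt_neg this⟩
      · rintro (⟨h, -⟩ | ⟨h, -⟩)
        · have h' : ((e a).val : ℝ) < (e b).val := h
          have : (e a).val < (e b).val := by exact_mod_cast h'
          omega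
        · have h' : ((e b).val : ℝ) < (e a).val := h
          have : (e b).val < (e a).val := by exact_mod_cast h'
          omega
  · left
    obtain ⟨x, rfl⟩ := K.exists_rep
    have : Nonempty X := ⟨x.1⟩
    have hsupp : ∀ v : ↑Wᶜ, v ∈ SimpleGraph.ConnectedComponent.supp
        (Quot.mk _ x : (G.induce Wᶜ).ConnectedComponent) → v = x ∨ G.Adj v.1 x.1 := by
      intro v hv
      exact hreach v x (SimpleGraph.ConnectedComponent.exact hv)
    by_cases hy : ∃ y : ↑Wᶜ, G.Adj y.1 x.1
    · obtain ⟨y, hy⟩ := hy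
      obtain ⟨a, ha, h1⟩ := hone x.1 x.2 y.1 y.2 hy.symm
      obtain ⟨b, hb, h2⟩ := hone y.1 y.2 x.1 x.2 hy
      refine ⟨a, b, fun v hv z hz hvz => ?_⟩
      rcases hsupp v hv with rfl | h3
      · rcases h1 z hvz with h4 | h4
        · exact absurd (h4 ▸ hz) y.2
        · exact Or.inl h4
      · have h5 : v = y := by
          rcases h1 v.1 h3.symm with h6 | h6
          · exact Subtype.ext h6
          · exact absurd (h6 ▸ ha) v.2
        rw [h5] at hvz
        rcases h2 z hvz with h4 | h4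
        · exact absurd (h4 ▸ hz) x.2
        · exact Or.inr h4
    · obtain ⟨a, b, hab⟩ := two_of_ncard (G.neighborSet x.1) (hdeg2 x.1 x.2)
      refine ⟨a, b, fun v hv z hz hvz => ?_⟩
      rcases hsupp v hv with rfl | h3
      · exact hab z hvz
      · exact absurd ⟨v, h3⟩ hy

/-- **Complements of planar graphs as segment graphs.** Let `G` be a finite planar graph and `W`
an independent set of vertices such that each connected component `K` of `G - W` is a permutation
graph, and either at most two vertices of `W` have neighbours in `K`, or there are vertices `a`,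
`b`, `c` such that the neighbourhood in `W` of each vertex of `K` is empty or consists of those
vertices among `a`, `b`, `c` which are in `W`. Then the complement of `G` is a segment
intersection graph. By `low_degree` this covers the planar graphs in which each edge has an end of
degree at most two. -/
theorem result (X : Type) [Finite X] (G : SimpleGraph X) (hG : IsPlanar G) (W : Set X)
    (hW : ∀ x ∈ W, ∀ y ∈ W, ¬ G.Adj x y)
    (hK : ∀ K : (G.induce Wᶜ).ConnectedComponent,
      IsPermGraph ((G.induce Wᶜ).induce K.supp) ∧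
      ((∃ a b : X, ∀ x ∈ K.supp, ∀ y ∈ W, G.Adj x y → y = a ∨ y = b) ∨
        ∃ a b c : X, ∀ x ∈ K.supp, (∀ y ∈ W, ¬ G.Adj x y) ∨
          ∀ y ∈ W, (G.Adj x y ↔ y = a ∨ y = b ∨ y = c))) :
    ∃ s : X → (ℝ × ℝ) × (ℝ × ℝ), (∀ v, (s v).1 ≠ (s v).2) ∧
      ∀ u v, u ≠ v → (Gᶜ.Adj u v ↔
        (segment ℝ (s u).1 (s u).2 ∩ segment ℝ (s v).1 (s v).2).Nonempty) :=
  blocks X G hG W hW hK

end Pool.Agent.Results.MP_ddd335_co.PlanarBlocks
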