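import Pool.Agent.Lib.H32S.Z

set_option autoImplicit false

namespace Pool.Agent.Results.MP_ddd335_co.PlanarThreeTrees

open Pool.Agent.Lib.H32S

/-- Let `G` be a stacked triangulation (planar 3-tree, Apollonian network) and `H` a graph that is
isomorphic to an induced subgraph of `G`.  Then the complement of `H` is a segment intersection
graph. -/
theorem result {V : Type} {n : ℕ} (G : SimpleGraph (Fin n)) (hG : IsStacked G)
    (H : SimpleGraph V) (f : H ↪g G) :
    ∃ s : V → (ℝ × ℝ) × (ℝ × ℝ), (∀ v, (s v).1 ≠ (s v).2) ∧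
      ∀ u v, u ≠ v → (Hᶜ.Adj u v ↔
        (segment ℝ (s u).1 (s u).2 ∩ segment ℝ (s v).1 (s v).2).Nonempty) :=
  main G hG H f

end Pool.Agent.Results.MP_ddd335_co.PlanarThreeTrees
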